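import Mathlib
import Pool.Agent.Z894.CP.Stm

/-!
Project CP (owner helper894), part 5: specialisation of very general equations to characteristic `p`.
-/

set_option autoImplicit false

open MvPolynomial

namespace Pool.Agent.Y417.CP

open Pool.Agent.TH922.KC

/-- Specialisation along a surjection from a polynomial ring over `ℤ`. -/
theorem exists_val {τ R : Type} [CommRing R] [IsDomain R] (v : τ → ℂ)
    (hv : AlgebraicIndependent ℤ v) (ρ : MvPolynomial τ ℤ →+* R) (hρ : Function.Surjective ρ) :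
    ∃ (B : ValuationSubring ℂ) (φ : R →+* IsLocalRing.ResidueField B) (hB : ∀ x, v x ∈ B),
      Function.Injective φ ∧
      ∀ x, IsLocalRing.residue B ⟨v x, hB x⟩ = φ (ρ (X x)) := by
  classical
  let P : Ideal (MvPolynomial τ ℤ) := RingHom.ker ρ
  have hP : P.IsPrime := RingHom.ker_isPrime ρ
  let ev : MvPolynomial τ ℤ →+* ℂ := (aeval v : MvPolynomial τ ℤ →ₐ[ℤ] ℂ)
  have hev : Function.Injective ev := hv
  have hunit : ∀ y : P.primeCompl, IsUnit (ev y) := by
    rintro ⟨y, hy⟩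
    rw [isUnit_iff_ne_zero]
    intro h0
    apply hy
    have : y = 0 := hev (h0.trans (map_zero ev).symm)
    rw [this]
    exact P.zero_mem
  let f : Localization.AtPrime P →+* ℂ := IsLocalization.lift (M := P.primeCompl) hunit
  have hf : ∀ u, f (algebraMap _ _ u) = ev u := fun u => IsLocalization.lift_eq hunit u
  obtain ⟨B, h, hloc⟩ := IsLocalRing.exists_factor_valuationRing f
  let g : MvPolynomial τ ℤ →+* B :=
    (f.codRestrict B.toSubring h).comp (algebraMap _ (Localization.AtPrime P))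
  have hg : ∀ u, ((g u : B) : ℂ) = ev u := hf
  let π : MvPolynomial τ ℤ →+* IsLocalRing.ResidueField B := (IsLocalRing.residue B).comp g
  have hπ : ∀ u, π u = 0 ↔ ρ u = 0 := by
    intro u
    have h1 : π u = 0 ↔ g u ∈ IsLocalRing.maximalIdeal B := IsLocalRing.residue_eq_zero_iff _
    rw [h1, IsLocalRing.mem_maximalIdeal, mem_nonunits_iff]
    have h2 : IsUnit (g u) ↔ IsUnit (algebraMap _ (Localization.AtPrime P) u) :=
      isUnit_map_iff (f.codRestrict B.toSubring h) _
    rw [h2, IsLocalization.AtPrime.isUnit_to_map_iff _ P]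
    change ¬ (u ∉ P) ↔ _
    rw [not_not]
    exact RingHom.mem_ker
  have hker : RingHom.ker ρ ≤ RingHom.ker π := fun u hu => (hπ u).2 hu
  let φ : R →+* IsLocalRing.ResidueField B := ρ.liftOfSurjective hρ ⟨π, hker⟩
  have hφ : ∀ u, φ (ρ u) = π u := fun u => RingHom.liftOfSurjective_comp_apply ρ hρ ⟨π, hker⟩ u
  have hvB : ∀ x, v x ∈ B := by
    intro x
    have h1 : v x = ((g (X x) : B) : ℂ) := by
      rw [hg]
      exact (aeval_X v x).symm
    rw [h1]
    exact (g (X x)).2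
  refine ⟨B, φ, hvB, ?_, ?_⟩
  · rw [injective_iff_map_eq_zero]
    intro a ha
    obtain ⟨u, rfl⟩ := hρ a
    rw [hφ] at ha
    exact (hπ u).1 ha
  · intro x
    rw [hφ]
    change _ = IsLocalRing.residue B (g (X x))
    congr 1
    apply Subtype.ext
    rw [hg]
    exact (aeval_X v x).symm

theorem spec_holds : Pool.Agent.Z894.CP.PSpec := by
  intro X' _ r d K1 f hf hind p _ ι _ c hc f0 hf0
  classical
  let σ := Σ i : Fin r, {μ : X' →₀ ℕ // μ.degree = d i}
  let a : σ → ℂ := fun x => coeff x.2.1 (f x.1)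
  let v : σ ⊕ ι → ℂ := Sum.elim a (algebraMap K1 ℂ ∘ c)
  have hv : AlgebraicIndependent ℤ v :=
    (hc.sumElim_comp hind).restrictScalars (Int.cast_injective)
  let ρ : MvPolynomial (σ ⊕ ι) ℤ →+* MvPolynomial ι (ZMod p) :=
    eval₂Hom (Int.castRingHom _) (Sum.elim (fun x => coeff x.2.1 (f0 x.1)) X)
  have hρX : ∀ x, ρ (X x) = (Sum.elim (fun x => coeff x.2.1 (f0 x.1)) X : σ ⊕ ι → _) x :=
    fun x => eval₂Hom_X' _ _ _
  have hρ : Function.Surjective ρ := by
    intro q
    induction q using MvPolynomial.induction_on with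
    | C z =>
      obtain ⟨m, rfl⟩ := ZMod.intCast_surjective z
      exact ⟨C m, by simp [ρ]⟩
    | add p q hp hq =>
      obtain ⟨u, rfl⟩ := hp
      obtain ⟨w, rfl⟩ := hq
      exact ⟨u + w, map_add _ _ _⟩
    | mul_X p i hp =>
      obtain ⟨u, rfl⟩ := hp
      exact ⟨u * X (Sum.inr i), by rw [map_mul, hρX]; rfl⟩
  obtain ⟨B, φ1, hB, hinj, hres⟩ := exists_val v hv ρ hρ
  have haB : ∀ x, a x ∈ B := fun x => hB (Sum.inl x)
  have hres' : ∀ x : σ, IsLocalRing.residue B ⟨a x, haB x⟩ = φ1 (coeff x.2.1 (f0 x.1)) := by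
    intro x
    have h1 := hres (Sum.inl x)
    rw [hρX] at h1
    exact h1
  refine ⟨B, φ1, hinj, fun I hI i => ?_⟩
  rw [mem_red]
  refine ⟨tp X' B (d i) (fun μ => ⟨a ⟨i, μ⟩, haB _⟩), ?_, ?_⟩
  · rw [map_tp]
    have : tp X' ℂ (d i) (fun μ => B.subtype ⟨a ⟨i, μ⟩, haB _⟩) = f i := tp_coeff (d i) (hf i)
    rw [this]
    exact hI i
  · rw [map_tp]
    have h1 : MvPolynomial.map φ1 (f0 i) = tp X' (IsLocalRing.ResidueField B) (d i)
        (fun μ => φ1 (coeff μ.1 (f0 i))) := by
      conv_lhs => rw [← tp_coeff (d i) (hf0 i)]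
      rw [map_tp]
    rw [h1]
    congr 1
    funext μ
    exact hres' ⟨i, μ⟩

end Pool.Agent.Y417.CP
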